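import Pool.Agent.NPC.Dec
import Pool.Agent.H671R2.PolyAuto

/-!
# `NP` is closed under polynomial-time many-one reductions
-/

namespace Pool.Agent.NPC

/-- From the tree code of a bit string to the raw bit string. -/
theorem PC.rawOut609 :
    PC (bits : List Bool → List Bool) (fun x : List Bool => x) (fun x => x) := by
  refine ⟨Cmd.seq (Cmd.loop 0 (Cmd.cases 0 Cmd.skip (Cmd.pop 0)
    (Cmd.seq (Cmd.pop 0) (Cmd.cases 0 Cmd.skip
      (Cmd.seq (Cmd.pop 0) (Cmd.push 1 false))
      (Cmd.seq (Cmd.pop 0) (Cmd.seq (Cmd.pop 0) (Cmd.seq (Cmd.pop 0) (Cmd.push 1 true))))))))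
    (mv 1 0), Polynomial.C 20 * Polynomial.X + Polynomial.C 20, fun x => ?_⟩
  rw [inp_eq_st, inp_eq_st]
  have key : ∀ x acc : List Bool, Runs (Cmd.loop 0 (Cmd.cases 0 Cmd.skip (Cmd.pop 0)
    (Cmd.seq (Cmd.pop 0) (Cmd.cases 0 Cmd.skip
      (Cmd.seq (Cmd.pop 0) (Cmd.push 1 false))
      (Cmd.seq (Cmd.pop 0) (Cmd.seq (Cmd.pop 0) (Cmd.seq (Cmd.pop 0) (Cmd.push 1 true))))))))
      (st (bits x) acc []) (st [] (x.reverse ++ acc) []) (10 * x.length + 10) := by
    intro x
    induction x with
    | nil =>
      intro acc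
      refine (Runs.loopCons (by simp [bits, T.enc]) (Runs.casesFalse (l := []) rfl
        (Runs.pop _ 0)) (Runs.loopNil (by simp [bits, T.enc]))).conv rfl ?_ (by simp)
      simp [bits, T.enc]
    | cons b x ih =>
      intro acc
      have ih' := ih (b :: acc)
      have hb : Runs (Cmd.cases 0 Cmd.skip (Cmd.pop 0)
        (Cmd.seq (Cmd.pop 0) (Cmd.cases 0 Cmd.skip
        (Cmd.seq (Cmd.pop 0) (Cmd.push 1 false))
        (Cmd.seq (Cmd.pop 0) (Cmd.seq (Cmd.pop 0) (Cmd.seq (Cmd.pop 0) (Cmd.push 1 true)))))))
        (st (bits (b :: x)) acc []) (st (bits x) (b :: acc) []) 7 := by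
        cases b with
        | false =>
          refine (Runs.casesTrue (l := false :: bits x) rfl ((Runs.pop _ 0).seq
            (Runs.casesFalse (l := bits x) (by simp [bits, T.enc]) ((Runs.pop _ 0).seq
            (Runs.push _ 1 false))))).conv rfl ?_ (by simp)
          simp [bits, T.enc]
        | true =>
          refine (Runs.casesTrue (l := true :: false :: false :: bits x) rfl ((Runs.pop _ 0).seq
            (Runs.casesTrue (l := false :: false :: bits x) (by simp [bits, T.enc])
              ((Runs.pop _ 0).seq ((Runs.pop _ 0).seq ((Runs.pop _ 0).seq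
              (Runs.push _ 1 true))))))).conv rfl ?_ (by simp)
          simp [bits, T.enc]
      refine (Runs.loopCons (by simp [bits, T.enc]) hb ih').conv rfl ?_ ?_
      · simp
      · simp; omega
  have h3 := key x []
  rw [List.append_nil] at h3
  refine (h3.seq (mv_runs (i := 1) (j := 0) (by decide) x.reverse _ (st x [] []) rfl
    (by simp))).mono ?_
  have h4 := sz_listBool_ge x
  rw [← bits_length] at h4
  simp only [List.length_reverse, Polynomial.eval_add, Polynomial.eval_mul, Polynomial.eval_C,
    Polynomial.eval_X]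
  omega

/-- A polynomial-time machine function on bit strings is a program function. -/
theorem poly_of_polyTime {f : List Bool → List Bool} (hf : PolyTime f) : Poly f := by
  have h1 : PC (fun x : List Bool => x) (fun x : List Bool => x) f :=
    H642R2.TMSim.polyTime_toPC hf
  exact PC.comp (g := fun x => x) (f := f) PC.rawIn
    (PC.comp (g := f) (f := fun x => x) h1 PC.rawOut609)

theorem poly_pairBits : Poly (fun p : List Bool × List Bool => pairBits p.1 p.2) := by
  unfold pairBits
  fun_prop

/-- `NP` is closed under polynomial-time many-one reductions. -/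
theorem InNP.of_reduces {L L' : Set (List Bool)} (h : Reduces L' L) (hL : InNP L) : InNP L' := by
  obtain ⟨f, hf, hfL⟩ := h
  obtain ⟨V, p, hV, hVL⟩ := hL
  have hf' := poly_of_polyTime hf
  have hV' := poly_of_polyTime hV
  obtain ⟨r, hr⟩ := hf'.sz_le
  have hlen : ∀ x : List Bool, (f x).length ≤ r.eval (4 * x.length + 1) := by
    intro x
    have h1 := hr x
    have h2 := sz_listBool_ge (f x)
    have h3 := sz_listBool_le x
    have h4 := eval_mono r h3
    omega
  have hg : Poly (fun y : List Bool =>
      decide (V (pairBits (f (unpair y).1) (unpair y).2) = [true]) &&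
        decide ((unpair y).2.length ≤ p.eval (f (unpair y).1).length)) := by
    refine Poly.and (Poly.dec_eq (hV'.comp (poly_pairBits.comp (Poly.pair
      (hf'.comp (Poly.fst poly_unpair)) (Poly.snd poly_unpair)))) (Poly.const _)) ?_
    refine Poly.decide_le (Poly.length (Poly.snd poly_unpair)) ?_
    exact (((UPoly.length (l := fun y : List Bool => f (unpair y).1)
      (hf'.comp (Poly.fst poly_unpair))).eval p)).toPoly
  refine ⟨_, p.comp (r.comp (Polynomial.C 4 * Polynomial.X + Polynomial.C 1)),
    polyTime_of_poly hg, fun x => ?_⟩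
  rw [hfL x, hVL]
  have hb : p.eval (f x).length ≤
      (p.comp (r.comp (Polynomial.C 4 * Polynomial.X + Polynomial.C 1))).eval x.length := by
    rw [Polynomial.eval_comp, Polynomial.eval_comp]
    refine eval_mono p ?_
    simpa using hlen x
  constructor
  · rintro ⟨w, hw, h⟩
    exact ⟨w, hw.trans hb, by simp [unpair_pairBits, h, hw]⟩
  · rintro ⟨w, _, h⟩
    simp only [unpair_pairBits, List.cons.injEq, Bool.and_eq_true, decide_eq_true_eq,
      and_true] at h
    exact ⟨w, h.2, h.1⟩

/-- If a `coNP`-hard language is in `NP`, then `coNP` is contained in `NP`. -/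
theorem CoNPHard.collapse609 {L : Set (List Bool)} (h : CoNPHard L) (hL : InNP L) :
    ∀ L', InCoNP L' → InNP L' := fun _ h' => InNP.of_reduces (h _ h') hL

end Pool.Agent.NPC
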