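import Pool.Agent.H609R2.EqPoly

/-!
# CIS graphs: the graph of a formula is CIS exactly when the formula is unsatisfiable
-/

namespace Pool.Agent.H609R2

open Pool.Agent.H622R2 (mat matGraph labGraph matIso)
open Pool.Agent.NPC

/-- A graph is CIS if every maximal clique meets every maximal stable set. -/
def IsCIS {V : Type} (G : SimpleGraph V) : Prop :=
  ∀ C S : Set V, Maximal G.IsClique C → Maximal G.IsIndepSet S → (C ∩ S).Nonempty

theorem isClique_image {V W : Type} {G : SimpleGraph V} {H : SimpleGraph W} (e : G ≃g H)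
    (S : Set V) : H.IsClique (e '' S) ↔ G.IsClique S := by
  constructor
  · intro h a ha b hb hab
    exact (e.map_adj_iff).1 (h ⟨a, ha, rfl⟩ ⟨b, hb, rfl⟩ (fun h' => hab (e.injective h')))
  · rintro h _ ⟨a, ha, rfl⟩ _ ⟨b, hb, rfl⟩ hab
    exact (e.map_adj_iff).2 (h ha hb (fun h' => hab (by rw [h'])))

theorem maximal_clique_image {V W : Type} {G : SimpleGraph V} {H : SimpleGraph W} (e : G ≃g H)
    (S : Set V) : Maximal H.IsClique (e '' S) ↔ Maximal G.IsClique S := by
  constructor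
  · rintro ⟨h1, h2⟩
    refine ⟨(isClique_image e S).1 h1, fun T hT hST => ?_⟩
    have := h2 ((isClique_image e T).2 hT) (Set.image_mono hST)
    exact (Set.image_subset_image_iff e.injective).1 this
  · rintro ⟨h1, h2⟩
    refine ⟨(isClique_image e S).2 h1, fun T hT hST => ?_⟩
    have h3 : e '' (e ⁻¹' T) = T := Set.image_preimage_eq T e.surjective
    rw [← h3] at hT hST ⊢
    exact Set.image_mono (h2 ((isClique_image e _).1 hT)
      ((Set.image_subset_image_iff e.injective).1 hST))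

theorem IsCIS.of_iso {V W : Type} {G : SimpleGraph V} {H : SimpleGraph W} (e : G ≃g H)
    (h : IsCIS G) : IsCIS H := by
  intro C S hC hS
  have h1 : e '' (e ⁻¹' C) = C := Set.image_preimage_eq C e.surjective
  have h2 : e '' (e ⁻¹' S) = S := Set.image_preimage_eq S e.surjective
  rw [← h1, maximal_clique_image e] at hC
  rw [← h2, maximal_image e] at hS
  obtain ⟨x, hx1, hx2⟩ := h _ _ hC hS
  exact ⟨e x, hx1, hx2⟩

section

variable {n m : ℕ} {L : ℕ → ℕ → Bool → Bool} {vs : List Lb}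

theorem In.adj {C : Set {x // x ∈ vs}} (hC : (labGraph vs (adjE L)).IsClique C) {x y : Lb}
    (hx : In C x) (hy : In C y) (hxy : x ≠ y) : AdjP L x y := by
  obtain ⟨hx, hxC⟩ := hx
  obtain ⟨hy, hyC⟩ := hy
  exact (adj_iff _ _).1 (hC hxC hyC (fun h => hxy (congrArg Subtype.val h)))

theorem exists_not_adj {C : Set {x // x ∈ vs}} (hC : Maximal (labGraph vs (adjE L)).IsClique C)
    {x : Lb} (hx : x ∈ vs) (hxC : ¬ In C x) : ∃ y, In C y ∧ y ≠ x ∧ ¬ AdjP L x y := by
  by_contra hcon
  push Not at hcon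
  apply hxC
  refine ⟨hx, ?_⟩
  have h1 : (labGraph vs (adjE L)).IsClique (insert ⟨x, hx⟩ C) := by
    intro a ha b hb hab
    rcases ha with rfl | ha
    · rcases hb with rfl | hb
      · exact absurd rfl hab
      · exact (adj_iff _ _).2 (hcon b.1 ⟨b.2, hb⟩ (fun h => hab (Subtype.ext h.symm)))
    · rcases hb with rfl | hb
      · exact ((adj_iff _ _).2 (hcon a.1 ⟨a.2, ha⟩ (fun h => hab (Subtype.ext h)))).symm
      · exact hC.1 ha hb hab
  exact hC.2 h1 (Set.subset_insert _ _) (Set.mem_insert _ _)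

theorem cis_of_unsat (hvs : ∀ x, x ∈ vs ↔ ValidE n m L x) (hn : 0 < n)
    (hL : ∀ k i, L k i true = true → L k i false = false)
    (hun : ∀ τ : ℕ → Bool, ∃ k < m, ∀ i < n, L k i (τ i) = false) :
    IsCIS (labGraph vs (adjE L)) := by
  intro C S hC hS
  obtain ⟨τ, k, hτ⟩ := total_of_unsat hvs hn hL hun hS
  by_contra hcon
  have hdis : ∀ x, In C x → ¬ In S x := by
    rintro x ⟨hx, hxC⟩ ⟨_, hxS⟩
    exact hcon ⟨_, hxC, hxS⟩
  -- the key step: no element `inr (j, k, b)` of `C` whose other elements avoid `inl`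
  have key : ∀ j b, In C (Sum.inr (j, k, b)) →
      (∀ i c, In C (Sum.inl (i, c)) → L k i c = true) → False := by
    intro j b hjb hlit
    have hj : j < n := ((hvs _).1 hjb.1).1
    have hb : b ≠ τ j := by
      rintro rfl
      exact hdis _ hjb (hτ j hj).2
    obtain ⟨y, hyC, hyne, hyadj⟩ := exists_not_adj hC (hτ j hj).2.1
      (fun h => hdis _ h (hτ j hj).2)
    rcases y with ⟨i, c⟩ | ⟨i, l, c⟩
    · exact hyadj ((adjP_lr _ _ _ _ _).2 (Or.inr (hlit i c hyC))).symm
    · rw [adjP_rr] at hyadj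
      push Not at hyadj
      obtain ⟨rfl, h2⟩ := hyadj
      by_cases hij : j = i
      · subst hij
        exact hyne (by rw [h2 rfl])
      · have h3 := In.adj hC.1 hyC hjb (by
          intro h
          simp only [Sum.inr.injEq, Prod.mk.injEq] at h
          exact hij h.1.symm)
        rw [adjP_rr] at h3
        rcases h3 with h3 | h3
        · exact h3 rfl
        · exact hij h3.1.symm
  by_cases hex : ∃ i a, In C (Sum.inl (i, a))
  · obtain ⟨i, a, hia⟩ := hex
    have hi : i < n := (hvs _).1 hia.1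
    have hτi : τ i ≠ a := by
      rintro rfl
      exact hdis _ hia (hτ i hi).1
    have hC1 : ∀ j c, In C (Sum.inl (j, c)) → j = i ∧ c = a := by
      intro j c h
      by_cases hne : (Sum.inl (j, c) : Lb) = Sum.inl (i, a)
      · simpa using hne
      · have := In.adj hC.1 h hia hne
        rw [adjP_ll] at this
        exfalso
        obtain ⟨rfl, hca⟩ := this
        have hc : c = τ j := by
          cases c <;> cases a <;> cases hh : τ j <;> simp_all
        subst hc
        exact hdis _ h (hτ j hi).1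
    obtain ⟨y, hyC, hyne, hyadj⟩ := exists_not_adj hC (hτ i hi).2.1
      (fun h => hdis _ h (hτ i hi).2)
    rcases y with ⟨j, c⟩ | ⟨j, l, c⟩
    · obtain ⟨rfl, rfl⟩ := hC1 j c hyC
      exact hyadj ((adjP_lr _ _ _ _ _).2 (Or.inl ⟨rfl, hτi.symm⟩)).symm
    · rw [adjP_rr] at hyadj
      push Not at hyadj
      obtain ⟨rfl, h2⟩ := hyadj
      have hij : i ≠ j := by
        intro hij
        exact hyne (by rw [h2 hij, hij])
      have h3 := In.adj hC.1 hia hyC (by simp)
      rw [adjP_lr] at h3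
      rcases h3 with h3 | h3
      · exact hij h3.1
      · refine key j c hyC (fun i' c' h' => ?_)
        obtain ⟨rfl, rfl⟩ := hC1 i' c' h'
        exact h3
  · push Not at hex
    obtain ⟨y, hyC, hyne, hyadj⟩ := exists_not_adj hC (hτ 0 hn).2.1
      (fun h => hdis _ h (hτ 0 hn).2)
    rcases y with ⟨j, c⟩ | ⟨j, l, c⟩
    · exact hex _ _ hyC
    · rw [adjP_rr] at hyadj
      push Not at hyadj
      obtain ⟨rfl, h2⟩ := hyadj
      exact key j c hyC (fun i' c' h' => absurd h' (hex i' c'))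

theorem not_cis_of_sat (hvs : ∀ x, x ∈ vs ↔ ValidE n m L x) (hm : 0 < m)
    (i0 : ℕ) (hi0 : i0 < n) (hd : ∀ k a, L k i0 a = false) (τ : ℕ → Bool)
    (hτ : ∀ k < m, ∃ i < n, L k i (τ i) = true) : ¬ IsCIS (labGraph vs (adjE L)) := by
  intro h
  have hS := maximal_sat hvs τ hτ
  have hC : Maximal (labGraph vs (adjE L)).IsClique
      {x : {x // x ∈ vs} | x.1 = Sum.inl (i0, !τ i0) ∨ ∃ k, x.1 = Sum.inr (i0, k, τ i0)} := by
    refine ⟨?_, ?_⟩
    · intro x hx y hy hxy
      rw [adj_iff]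
      have hxy' : x.1 ≠ y.1 := fun h => hxy (Subtype.ext h)
      rcases hx with hx | ⟨k, hx⟩ <;> rcases hy with hy | ⟨l, hy⟩ <;> rw [hx, hy] at hxy' ⊢
      · exact absurd rfl hxy'
      · exact (adjP_lr _ _ _ _ _).2 (Or.inl ⟨rfl, by simp⟩)
      · exact ((adjP_lr _ _ _ _ _).2 (Or.inl ⟨rfl, by simp⟩)).symm
      · refine (adjP_rr _ _ _ _ _ _).2 (Or.inl ?_)
        rintro rfl
        exact hxy' rfl
    · intro T hT hQT x hx
      have hyT : (⟨Sum.inl (i0, !τ i0), (hvs _).2 hi0⟩ : {x // x ∈ vs}) ∈ T := hQT (Or.inl rfl)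
      have hpT : (⟨Sum.inr (i0, 0, τ i0), (hvs _).2 ⟨hi0, hm, hd _ _⟩⟩ : {x // x ∈ vs}) ∈ T :=
        hQT (Or.inr ⟨0, rfl⟩)
      obtain ⟨x, hxv⟩ := x
      by_cases hxy : x = Sum.inl (i0, !τ i0)
      · exact Or.inl hxy
      · have h1 := In.adj (L := L) hT ⟨hxv, hx⟩ ⟨_, hyT⟩ hxy
        rcases x with ⟨i, a⟩ | ⟨i, k, a⟩
        · rw [adjP_ll] at h1
          obtain ⟨rfl, h2⟩ := h1
          have ha : a = τ i := by cases a <;> cases hh : τ i <;> simp_all
          have h3 := In.adj (L := L) hT ⟨hxv, hx⟩ ⟨_, hpT⟩ (by simp)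
          rw [adjP_lr] at h3
          rcases h3 with h3 | h3
          · exact absurd ha h3.2
          · rw [hd] at h3
            exact absurd h3 (by simp)
        · have h1' := (adjP_lr _ _ _ _ _).1 h1.symm
          rcases h1' with ⟨rfl, h2⟩ | h1'
          · refine Or.inr ⟨k, ?_⟩
            have ha : a = τ i0 := by cases a <;> cases hh : τ i0 <;> simp_all
            change (Sum.inr (i0, k, a) : Lb) = _
            rw [ha]
          · rw [hd] at h1'
            exact absurd h1' (by simp)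
  obtain ⟨x, hx1, i, hx2⟩ := h _ _ hC hS
  rcases hx1 with hx1 | ⟨k, hx1⟩
  · rw [hx1] at hx2
    simp only [Sum.inl.injEq, Prod.mk.injEq] at hx2
    obtain ⟨rfl, h2⟩ := hx2
    simp at h2
  · rw [hx1] at hx2
    simp at hx2

end

/-- The graph of a formula is CIS exactly when the formula is unsatisfiable. -/
theorem eqRed_cis {φ : List C3} (h1 : Distinct3 φ) (h2 : Bounded3 φ) (h3 : φ ≠ []) :
    SAT3 φ ↔ ¬ IsCIS (matGraph (eqRed φ)) := by
  have e := matIso (labE φ) (adjE (satL φ)) (labE_nodup φ)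
  rw [SAT3_iff h2]
  constructor
  · rintro ⟨τ, hτ⟩ h
    exact not_cis_of_sat (mem_labE φ) (List.length_pos_iff.2 h3)
      (3 * φ.length) (by omega) (satL_dummy h2) τ hτ (IsCIS.of_iso e h)
  · intro h
    by_contra hun
    push Not at hun
    refine h (IsCIS.of_iso e.symm (cis_of_unsat (mem_labE φ) (by omega)
      (satL_consistent h1) ?_))
    intro τ
    obtain ⟨k, hk, h⟩ := hun τ
    exact ⟨k, hk, fun i hi => by simpa using h i hi⟩

/-- Being not CIS is hard. -/
theorem hardI_not_cis : HardI (fun M : List (List Bool) => ¬ IsCIS (matGraph M)) :=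
  (hardPr_SAT3b.trans (Pr' := fun _ => True) eqRed_poly (fun _ _ => trivial)
    (fun _ h => eqRed_cis h.1 h.2.1 h.2.2)).toHardI

end Pool.Agent.H609R2
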