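import Pool.Agent.H609R2.Cis

/-!
# Recognition of CIS graphs is in coNP
-/

namespace Pool.Agent.H609R2

open Pool.Agent.H622R2 (entry matGraph)
open Pool.Agent.NPC

/-- Adjacency in the graph of a matrix, as a test. -/
def adjB (M : List (List Bool)) (i j : ℕ) : Bool :=
  !(decide (i = j)) && (entry M i j || entry M j i)

theorem adjB_iff (M : List (List Bool)) (i j : Fin M.length) :
    adjB M i j = true ↔ (matGraph M).Adj i j := by
  simp [adjB, matGraph, Fin.ext_iff]

/-- `C` is a list of vertices forming a maximal clique. -/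
def chkC (M : List (List Bool)) (C : List ℕ) : Bool :=
  C.all (fun i => decide (i < M.length)) &&
    (C.all (fun i => C.all (fun j => decide (i = j) || adjB M i j)) &&
    (List.range M.length).all (fun x => decide (x ∈ C) || C.any (fun i => !(adjB M x i))))

/-- `S` is a list of vertices forming a maximal stable set. -/
def chkS (M : List (List Bool)) (S : List ℕ) : Bool :=
  S.all (fun i => decide (i < M.length)) &&
    (S.all (fun i => S.all (fun j => !(adjB M i j))) &&
    (List.range M.length).all (fun x => decide (x ∈ S) || S.any (fun i => adjB M x i)))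

/-- The set of vertices given by a list. -/
def ofL (n : ℕ) (C : List ℕ) : Set (Fin n) := {v | v.1 ∈ C}

theorem chkC_iff (M : List (List Bool)) (C : List ℕ) :
    chkC M C = true ↔ (∀ i ∈ C, i < M.length) ∧ Maximal (matGraph M).IsClique (ofL M.length C) := by
  simp only [chkC, Bool.and_eq_true, List.all_eq_true, decide_eq_true_eq, List.mem_range,
    Bool.or_eq_true, List.any_eq_true, Bool.not_eq_true']
  constructor
  · rintro ⟨h1, h2, h3⟩
    refine ⟨h1, ⟨fun i hi j hj hij => ?_, fun T hT hCT x hx => ?_⟩⟩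
    · rcases h2 i.1 hi j.1 hj with h | h
      · exact absurd (Fin.ext h) hij
      · exact (adjB_iff M i j).1 h
    · rcases h3 x.1 x.2 with h | ⟨i, hi, h⟩
      · exact h
      · have hiT : (⟨i, h1 i hi⟩ : Fin M.length) ∈ T := hCT hi
        by_contra hxC
        have hne : x ≠ ⟨i, h1 i hi⟩ := by
          rintro rfl
          exact hxC hi
        have := (adjB_iff M x ⟨i, h1 i hi⟩).2 (hT hx hiT hne)
        rw [h] at this
        exact absurd this (by simp)
  · rintro ⟨h1, h2, h3⟩
    refine ⟨h1, fun i hi j hj => ?_, fun x hx => ?_⟩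
    · by_cases hij : i = j
      · exact Or.inl hij
      · right
        exact (adjB_iff M ⟨i, h1 i hi⟩ ⟨j, h1 j hj⟩).2 (h2 hi hj (by simpa using hij))
    · by_contra hcon
      push Not at hcon
      obtain ⟨hxC, hall⟩ := hcon
      apply hxC
      have h4 : (matGraph M).IsClique (insert ⟨x, hx⟩ (ofL M.length C)) := by
        intro a ha b hb hab
        rcases ha with rfl | ha
        · rcases hb with rfl | hb
          · exact absurd rfl hab
          · exact (adjB_iff M _ _).1 (by simpa using hall b.1 hb)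
        · rcases hb with rfl | hb
          · exact ((adjB_iff M _ _).1 (by simpa using hall a.1 ha)).symm
          · exact h2 ha hb hab
      exact h3 h4 (Set.subset_insert _ _) (Set.mem_insert _ _)

theorem chkS_iff (M : List (List Bool)) (S : List ℕ) :
    chkS M S = true ↔
      (∀ i ∈ S, i < M.length) ∧ Maximal (matGraph M).IsIndepSet (ofL M.length S) := by
  simp only [chkS, Bool.and_eq_true, List.all_eq_true, decide_eq_true_eq, List.mem_range,
    Bool.or_eq_true, List.any_eq_true, Bool.not_eq_true']
  constructor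
  · rintro ⟨h1, h2, h3⟩
    refine ⟨h1, ⟨fun i hi j hj hij hadj => ?_, fun T hT hCT x hx => ?_⟩⟩
    · have := (adjB_iff M i j).2 hadj
      rw [h2 i.1 hi j.1 hj] at this
      exact absurd this (by simp)
    · rcases h3 x.1 x.2 with h | ⟨i, hi, h⟩
      · exact h
      · have hiT : (⟨i, h1 i hi⟩ : Fin M.length) ∈ T := hCT hi
        have hadj := (adjB_iff M x ⟨i, h1 i hi⟩).1 h
        exact absurd hadj (hT hx hiT hadj.ne)
  · rintro ⟨h1, h2, h3⟩
    refine ⟨h1, fun i hi j hj => ?_, fun x hx => ?_⟩
    · by_contra hcon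
      have hadj := (adjB_iff M ⟨i, h1 i hi⟩ ⟨j, h1 j hj⟩).1 (by simpa using hcon)
      exact h2 hi hj hadj.ne hadj
    · by_contra hcon
      push Not at hcon
      obtain ⟨hxC, hall⟩ := hcon
      apply hxC
      have h4 : (matGraph M).IsIndepSet (insert ⟨x, hx⟩ (ofL M.length S)) := by
        intro a ha b hb hab hadj
        rcases ha with rfl | ha
        · rcases hb with rfl | hb
          · exact hab rfl
          · exact hall b.1 hb ((adjB_iff M _ _).2 hadj)
        · rcases hb with rfl | hb
          · exact hall a.1 ha ((adjB_iff M _ _).2 hadj.symm)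
          · exact h2 ha hb hab hadj
      exact h3 h4 (Set.subset_insert _ _) (Set.mem_insert _ _)

/-- The list of the vertices of a set. -/
noncomputable def toL {n : ℕ} (C : Set (Fin n)) : List ℕ := by
  classical
  exact (List.range n).filter (fun i => decide (∃ h : i < n, (⟨i, h⟩ : Fin n) ∈ C))

theorem mem_toL {n : ℕ} (C : Set (Fin n)) (i : ℕ) : i ∈ toL C ↔ ∃ h : i < n, (⟨i, h⟩ : Fin n) ∈ C := by
  classical
  simp only [toL, List.mem_filter, List.mem_range, decide_eq_true_eq]
  constructor
  · rintro ⟨_, h⟩; exact h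
  · rintro ⟨h, h'⟩; exact ⟨h, h, h'⟩

theorem ofL_toL {n : ℕ} (C : Set (Fin n)) : ofL n (toL C) = C := by
  ext v
  change v.1 ∈ toL C ↔ _
  rw [mem_toL]
  exact ⟨fun ⟨_, h⟩ => h, fun h => ⟨v.2, h⟩⟩

theorem sz_filter_le {α : Type} [TEnc α] (l : List α) (p : α → Bool) :
    sz (l.filter p) ≤ sz l := by
  induction l with
  | nil => simp
  | cons a l ih =>
    rw [List.filter_cons]
    split_ifs
    · simp; omega
    · simp; omega

theorem sz_toL_le {n : ℕ} (C : Set (Fin n)) : sz (toL C) ≤ n * (4 * n + 2) + 1 := by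
  classical
  exact (sz_filter_le _ _).trans (Poly.sz_range_le n n le_rfl)

/-- The certificate check. -/
def cisChk (z : List (List Bool) × (List ℕ × List ℕ)) : Bool :=
  (chkC z.1 z.2.1 && chkS z.1 z.2.2) && z.2.1.all (fun i => !(decide (i ∈ z.2.2)))

theorem not_cis_iff (M : List (List Bool)) : ¬ IsCIS (matGraph M) ↔
    ∃ w : List ℕ × List ℕ, sz w ≤ 2 * (M.length * (4 * M.length + 2) + 1) + 1 ∧
      cisChk (M, w) = true := by
  constructor
  · intro h
    unfold IsCIS at h
    push Not at h
    obtain ⟨C, S, hC, hS, hCS⟩ := h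
    refine ⟨(toL C, toL S), ?_, ?_⟩
    · have h1 := sz_toL_le C
      have h2 := sz_toL_le S
      rw [sz_pair]
      omega
    · simp only [cisChk, Bool.and_eq_true, chkC_iff, chkS_iff, List.all_eq_true, ofL_toL]
      refine ⟨⟨⟨fun i hi => ((mem_toL _ _).1 hi).1, hC⟩, ⟨fun i hi => ((mem_toL _ _).1 hi).1, hS⟩⟩,
        fun i hi => ?_⟩
      simp only [Bool.not_eq_true', decide_eq_false_iff_not, mem_toL]
      rintro ⟨h, hiS⟩
      obtain ⟨_, hiC⟩ := (mem_toL _ _).1 hi
      have : (⟨i, h⟩ : Fin M.length) ∈ C ∩ S := ⟨hiC, hiS⟩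
      rw [hCS] at this
      exact this
  · rintro ⟨⟨C, S⟩, _, h⟩ hcis
    simp only [cisChk, Bool.and_eq_true, chkC_iff, chkS_iff, List.all_eq_true] at h
    obtain ⟨⟨⟨_, hC⟩, ⟨_, hS⟩⟩, h3⟩ := h
    obtain ⟨x, hx1, hx2⟩ := hcis _ _ hC hS
    have := h3 x.1 hx1
    simp only [Bool.not_eq_true', decide_eq_false_iff_not] at this
    exact this hx2

section PolyTime

open Poly

theorem adjB_poly {α : Type} [TEnc α] {f : α → List (List Bool)} {i j : α → ℕ} (hf : Poly f)
    (hi : Poly i) (hj : Poly j) : Poly (fun x => adjB (f x) (i x) (j x)) := by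
  unfold adjB entry
  fun_prop

theorem chkC_poly : Poly (fun z : List (List Bool) × List ℕ => chkC z.1 z.2) := by
  have h1 : Poly (fun z : List (List Bool) × List ℕ => List.range z.1.length) :=
    range_length (fst id)
  have h2 : Poly (fun p : ((List (List Bool) × List ℕ) × ℕ) × ℕ =>
      adjB p.1.1.1 p.1.2 p.2) := adjB_poly (by fun_prop) (by fun_prop) (by fun_prop)
  refine and (by fun_prop) (and ?_ ?_)
  · refine all (p := fun (z : List (List Bool) × List ℕ) i =>
      z.2.all (fun j => decide (i = j) || adjB z.1 i j)) (by fun_prop) ?_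
    exact all (p := fun (z : (List (List Bool) × List ℕ) × ℕ) j =>
      decide (z.2 = j) || adjB z.1.1 z.2 j) (by fun_prop) (or (by fun_prop) h2)
  · refine all (p := fun (z : List (List Bool) × List ℕ) x =>
      decide (x ∈ z.2) || z.2.any (fun i => !(adjB z.1 x i))) h1 ?_
    exact or (by fun_prop) (any (p := fun (z : (List (List Bool) × List ℕ) × ℕ) i =>
      !(adjB z.1.1 z.2 i)) (by fun_prop) (not h2))

theorem chkS_poly : Poly (fun z : List (List Bool) × List ℕ => chkS z.1 z.2) := by
  have h1 : Poly (fun z : List (List Bool) × List ℕ => List.range z.1.length) :=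
    range_length (fst id)
  have h2 : Poly (fun p : ((List (List Bool) × List ℕ) × ℕ) × ℕ =>
      adjB p.1.1.1 p.1.2 p.2) := adjB_poly (by fun_prop) (by fun_prop) (by fun_prop)
  refine and (by fun_prop) (and ?_ ?_)
  · refine all (p := fun (z : List (List Bool) × List ℕ) i =>
      z.2.all (fun j => !(adjB z.1 i j))) (by fun_prop) ?_
    exact all (p := fun (z : (List (List Bool) × List ℕ) × ℕ) j =>
      !(adjB z.1.1 z.2 j)) (by fun_prop) (not h2)
  · refine all (p := fun (z : List (List Bool) × List ℕ) x =>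
      decide (x ∈ z.2) || z.2.any (fun i => adjB z.1 x i)) h1 ?_
    exact or (by fun_prop) (any (p := fun (z : (List (List Bool) × List ℕ) × ℕ) i =>
      adjB z.1.1 z.2 i) (by fun_prop) h2)

theorem cisChk_poly : Poly cisChk := by
  have h1 := chkC_poly.comp (f := fun z : List (List Bool) × (List ℕ × List ℕ) => (z.1, z.2.1))
    (by fun_prop)
  have h2 := chkS_poly.comp (f := fun z : List (List Bool) × (List ℕ × List ℕ) => (z.1, z.2.2))
    (by fun_prop)
  exact and (and h1 h2) (by fun_prop)

end PolyTime

/-- Recognition of CIS graphs is in `coNP`. -/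
theorem inCoNPP_cis : InCoNPP (fun M : List (List Bool) => IsCIS (matGraph M)) := by
  refine inCoNPP_of cisChk_poly
    (2 * (Polynomial.X * (4 * Polynomial.X + 2) + 1) + 1) (fun M => ?_)
  rw [not_cis_iff]
  have hlen : M.length ≤ sz M := by
    have h : ∀ l : List (List Bool), l.length ≤ sz l := by
      intro l
      induction l with
      | nil => simp
      | cons a l ih => simp; omega
    exact h M
  have h2 : 2 * (M.length * (4 * M.length + 2) + 1) + 1 ≤
      (2 * (Polynomial.X * (4 * Polynomial.X + 2) + 1) + 1 : Polynomial ℕ).eval (sz M) := by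
    simp only [Polynomial.eval_add, Polynomial.eval_mul, Polynomial.eval_ofNat,
      Polynomial.eval_X, Polynomial.eval_one]
    gcongr
  constructor
  · rintro ⟨w, hw, h⟩
    exact ⟨w, hw.trans h2, h⟩
  · rintro ⟨w, _, h⟩
    by_contra hcon
    have hcis : IsCIS (matGraph M) := by
      by_contra h3
      exact hcon ((not_cis_iff M).1 h3)
    simp only [cisChk, Bool.and_eq_true, chkC_iff, chkS_iff, List.all_eq_true] at h
    obtain ⟨⟨⟨_, hC⟩, ⟨_, hS⟩⟩, h3⟩ := h
    obtain ⟨x, hx1, hx2⟩ := hcis _ _ hC hS
    have := h3 x.1 hx1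
    simp only [Bool.not_eq_true', decide_eq_false_iff_not] at this
    exact this hx2

end Pool.Agent.H609R2
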