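import Pool.Agent.H622R2.EdgeStrong

/-!
# Equistable graphs
-/

namespace Pool.Agent.H609R2

open Pool.Agent.H622R2

/-- A finite graph is equistable if there are a positive integer `t` and nonnegative integer
weights of the vertices such that a set of vertices is a maximal stable set exactly when its total
weight is `t`. -/
def Equistable {V : Type} (G : SimpleGraph V) : Prop :=
  ∃ (w : V → ℕ) (t : ℕ), 0 < t ∧
    ∀ S : Finset V, Maximal G.IsIndepSet (S : Set V) ↔ ∑ v ∈ S, w v = t

theorem isIndepSet_image {V W : Type} {G : SimpleGraph V} {H : SimpleGraph W} (e : G ≃g H)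
    (S : Set V) : H.IsIndepSet (e '' S) ↔ G.IsIndepSet S := by
  constructor
  · intro h a ha b hb hab hadj
    exact h ⟨a, ha, rfl⟩ ⟨b, hb, rfl⟩ (fun h' => hab (e.injective h')) ((e.map_adj_iff).2 hadj)
  · rintro h _ ⟨a, ha, rfl⟩ _ ⟨b, hb, rfl⟩ hab hadj
    exact h ha hb (fun h' => hab (by rw [h'])) ((e.map_adj_iff).1 hadj)

theorem maximal_image {V W : Type} {G : SimpleGraph V} {H : SimpleGraph W} (e : G ≃g H)
    (S : Set V) : Maximal H.IsIndepSet (e '' S) ↔ Maximal G.IsIndepSet S := by
  constructor
  · rintro ⟨h1, h2⟩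
    refine ⟨(isIndepSet_image e S).1 h1, fun T hT hST => ?_⟩
    have := h2 ((isIndepSet_image e T).2 hT) (Set.image_mono hST)
    exact (Set.image_subset_image_iff e.injective).1 this
  · rintro ⟨h1, h2⟩
    refine ⟨(isIndepSet_image e S).2 h1, fun T hT hST => ?_⟩
    have h3 : e '' (e ⁻¹' T) = T := Set.image_preimage_eq T e.surjective
    rw [← h3] at hT hST ⊢
    exact Set.image_mono (h2 ((isIndepSet_image e _).1 hT)
      ((Set.image_subset_image_iff e.injective).1 hST))

theorem Equistable.of_iso {V W : Type} {G : SimpleGraph V} {H : SimpleGraph W} (e : G ≃g H)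
    (h : Equistable G) : Equistable H := by
  classical
  obtain ⟨w, t, ht, h⟩ := h
  refine ⟨fun v => w (e.symm v), t, ht, fun S => ?_⟩
  have h1 : (S : Set W) = e '' ((S.map e.symm.toEquiv.toEmbedding : Finset V) : Set V) := by
    ext x
    simp only [Finset.mem_coe, Finset.coe_map, Set.mem_image, Equiv.coe_toEmbedding,
      RelIso.coe_fn_toEquiv, exists_exists_and_eq_and]
    constructor
    · intro hx
      exact ⟨x, hx, by simp⟩
    · rintro ⟨y, hy, rfl⟩
      simpa using hy
  rw [h1, maximal_image e, h, Finset.sum_map]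
  rfl

/-- Digits in base `B` are determined by the number. -/
theorem digits_unique {n : ℕ} (B : ℕ) (a b : Fin n → ℕ) (ha : ∀ j, a j < B) (hb : ∀ j, b j < B)
    (h : ∑ j, a j * B ^ (j : ℕ) = ∑ j, b j * B ^ (j : ℕ)) : a = b := by
  induction n with
  | zero => funext j; exact j.elim0
  | succ n ih =>
    rw [Fin.sum_univ_succ, Fin.sum_univ_succ] at h
    simp only [Fin.val_zero, pow_zero, mul_one, Fin.val_succ, pow_succ] at h
    have e1 : ∀ c : Fin (n + 1) → ℕ, ∑ x : Fin n, c x.succ * (B ^ (x : ℕ) * B) =
        B * ∑ x : Fin n, c x.succ * B ^ (x : ℕ) := by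
      intro c
      rw [Finset.mul_sum]
      refine Finset.sum_congr rfl fun x _ => by ring
    rw [e1, e1] at h
    have hB : 0 < B := lt_of_le_of_lt (Nat.zero_le _) (ha 0)
    have h0 : a 0 = b 0 := by
      have := congrArg (· % B) h
      simpa [Nat.add_mul_mod_self_left, Nat.mod_eq_of_lt (ha 0), Nat.mod_eq_of_lt (hb 0)] using this
    rw [h0] at h
    have h2 : ∑ x : Fin n, a x.succ * B ^ (x : ℕ) = ∑ x : Fin n, b x.succ * B ^ (x : ℕ) :=
      Nat.eq_of_mul_eq_mul_left hB (Nat.add_left_cancel h)
    have h3 := ih (fun x => a x.succ) (fun x => b x.succ) (fun j => ha _) (fun j => hb _) h2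
    funext j
    refine Fin.cases h0 (fun i => ?_) j
    exact congrFun h3 i

/-- In a finite nonempty graph all of whose edges lie in strong cliques (a general partition
graph) there are weights witnessing equistability. -/
theorem equistable_of_edgeStrong {V : Type} [Finite V] [Nonempty V] {G : SimpleGraph V}
    (h : EdgeStrong G) : Equistable G := by
  classical
  have := Fintype.ofFinite V
  -- every vertex is in a strong clique
  have hv : ∀ v : V, ∃ C : Set V, IsStrongClique G C ∧ v ∈ C := by
    intro v
    by_cases hiso : ∃ u, G.Adj v u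
    · obtain ⟨u, hu⟩ := hiso
      obtain ⟨C, hC, hv, _⟩ := h v u hu
      exact ⟨C, hC, hv⟩
    · push Not at hiso
      refine ⟨{v}, ⟨by simp [SimpleGraph.IsClique], fun S hS => ⟨v, rfl, ?_⟩⟩, rfl⟩
      have h1 : G.IsIndepSet (insert v S) := by
        intro a ha b hb hab hadj
        rcases ha with rfl | ha
        · exact hiso _ hadj
        · rcases hb with rfl | hb
          · exact hiso _ hadj.symm
          · exact hS.1 ha hb hab hadj
      exact hS.2 h1 (Set.subset_insert v S) (Set.mem_insert v S)
  let J := {Q : Finset V // IsStrongClique G (Q : Set V)}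
  let n := Fintype.card J
  let e : J ≃ Fin n := Fintype.equivFin J
  let B := Fintype.card V + 2
  have hJ : Nonempty J := by
    obtain ⟨C, hC, _⟩ := hv (Classical.arbitrary V)
    exact ⟨⟨C.toFinset, by simpa using hC⟩⟩
  let w : V → ℕ := fun v => ∑ j : Fin n, (if v ∈ (e.symm j).1 then 1 else 0) * B ^ (j : ℕ)
  have hw : ∀ S : Finset V, ∑ v ∈ S, w v =
      ∑ j : Fin n, (S.filter (fun v => v ∈ (e.symm j).1)).card * B ^ (j : ℕ) := by
    intro S
    simp only [w]
    rw [Finset.sum_comm]
    refine Finset.sum_congr rfl fun j _ => ?_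
    rw [← Finset.sum_mul, Finset.sum_boole]
    simp
  refine ⟨w, ∑ j : Fin n, 1 * B ^ (j : ℕ), ?_, fun S => ?_⟩
  · have hn : 0 < n := Fintype.card_pos
    refine Finset.sum_pos (fun j _ => by positivity) ⟨⟨0, hn⟩, Finset.mem_univ _⟩
  · rw [hw]
    constructor
    · intro hS
      refine Finset.sum_congr rfl fun j _ => ?_
      congr 1
      obtain ⟨x, hx1, hx2⟩ := (e.symm j).2.2 _ hS
      rw [Finset.card_eq_one]
      refine ⟨x, ?_⟩
      ext y
      simp only [Finset.mem_filter, Finset.mem_singleton]
      constructor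
      · rintro ⟨hy1, hy2⟩
        by_contra hxy
        exact hS.1 hy1 hx2 hxy ((e.symm j).2.1 hy2 hx1 hxy)
      · rintro rfl
        exact ⟨hx2, hx1⟩
    · intro hS
      have hd := digits_unique B _ _ (fun j => ?_) (fun j => ?_) hS
      · have hd' : ∀ Q : Finset V, IsStrongClique G (Q : Set V) →
            (S.filter (fun v => v ∈ Q)).card = 1 := by
          intro Q hQ
          have := congrFun hd (e ⟨Q, hQ⟩)
          simpa using this
        have hd2 : ∀ C : Set V, IsStrongClique G C → ∃! v, v ∈ S ∧ v ∈ C := by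
          intro C hC
          have := hd' C.toFinset (by simpa using hC)
          rw [Finset.card_eq_one] at this
          obtain ⟨x, hx⟩ := this
          have hx' : ∀ y, (y ∈ S ∧ y ∈ C) ↔ y = x := by
            intro y
            have := Finset.ext_iff.1 hx y
            simpa using this
          exact ⟨x, (hx' x).2 rfl, fun y hy => (hx' y).1 hy⟩
        refine ⟨?_, ?_⟩
        · intro a ha b hb hab hadj
          obtain ⟨C, hC, haC, hbC⟩ := h a b hadj
          exact hab ((hd2 C hC).unique ⟨ha, haC⟩ ⟨hb, hbC⟩)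
        · intro T hT hST v hvT
          obtain ⟨C, hC, hvC⟩ := hv v
          obtain ⟨x, ⟨hxS, hxC⟩, _⟩ := hd2 C hC
          by_cases hvx : v = x
          · rw [hvx]; exact hxS
          · exact absurd (hC.1 hvC hxC hvx) (hT hvT (hST hxS) hvx)
      · calc (S.filter (fun v => v ∈ (e.symm j).1)).card ≤ Fintype.card V :=
              Finset.card_le_univ _
          _ < B := by simp [B]
      · simp [B]

end Pool.Agent.H609R2
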