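import Pool.Agent.H609R2.EqRed
import Pool.Agent.NPC.Dec
import Pool.Agent.NPC.Sat2
import Pool.Agent.H671R2.PolyAuto

/-!
# Equistable graphs: the reduction is computable in polynomial time
-/

namespace Pool.Agent.H609R2

open Pool.Agent.H622R2 (nodup_flatMap_of mat matGraph labGraph matIso mat_poly EdgeStrong)
open Pool.Agent.NPC

/-- Clauses with three literals. -/
abbrev C3 := (Bool × ℕ) × (Bool × ℕ) × (Bool × ℕ)

/-- The value `a` of the variable `i` satisfies the `k`-th clause. -/
def satL (φ : List C3) (k i : ℕ) (a : Bool) : Bool :=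
  (φ[k]?).elim false (fun c => decide (c.1 = (a, i)) || decide (c.2.1 = (a, i)) ||
    decide (c.2.2 = (a, i)))

theorem satL_iff {φ : List C3} {k : ℕ} (hk : k < φ.length) (i : ℕ) (a : Bool) :
    satL φ k i a = true ↔ φ[k].1 = (a, i) ∨ φ[k].2.1 = (a, i) ∨ φ[k].2.2 = (a, i) := by
  unfold satL
  rw [List.getElem?_eq_getElem hk]
  simp [or_assoc]

theorem satL_none {φ : List C3} {k : ℕ} (hk : φ.length ≤ k) (i : ℕ) (a : Bool) :
    satL φ k i a = false := by
  unfold satL
  rw [List.getElem?_eq_none hk]
  rfl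

/-- The vertices. -/
def labE (φ : List C3) : List Lb :=
  (List.range (3 * φ.length + 1)).flatMap (fun i =>
    [(Sum.inl (i, false) : Lb), Sum.inl (i, true)]) ++
  (List.range (3 * φ.length + 1)).flatMap (fun i => (List.range φ.length).flatMap fun k =>
    ([false, true].filter (fun b => !satL φ k i b)).map (fun b => (Sum.inr (i, k, b) : Lb)))

theorem mem_labE (φ : List C3) (x : Lb) :
    x ∈ labE φ ↔ ValidE (3 * φ.length + 1) φ.length (satL φ) x := by
  rcases x with ⟨i, a⟩ | ⟨i, k, a⟩
  · simp only [labE, List.mem_append, List.mem_flatMap, List.mem_range, List.mem_cons,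
      Sum.inl.injEq, Prod.mk.injEq, List.not_mem_nil, or_false, List.mem_map, reduceCtorEq,
      and_false, exists_false, ValidE]
    constructor
    · rintro ⟨j, hj, ⟨rfl, _⟩ | ⟨rfl, _⟩⟩ <;> exact hj
    · intro h
      refine ⟨i, h, ?_⟩
      cases a <;> simp
  · simp only [labE, List.mem_append, List.mem_flatMap, List.mem_range, List.mem_cons,
      reduceCtorEq, List.not_mem_nil, or_false, List.mem_map, List.mem_filter,
      and_false, exists_false, false_or, ValidE, Sum.inr.injEq, Prod.mk.injEq, or_self]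
    constructor
    · rintro ⟨j, hj, l, hl, b, ⟨_, hb⟩, rfl, rfl, rfl⟩
      exact ⟨hj, hl, by simpa using hb⟩
    · rintro ⟨h1, h2, h3⟩
      exact ⟨i, h1, k, h2, a, ⟨by cases a <;> simp, by simpa using h3⟩, rfl, rfl, rfl⟩

theorem labE_nodup (φ : List C3) : (labE φ).Nodup := by
  unfold labE
  rw [List.nodup_append]
  refine ⟨?_, ?_, ?_⟩
  · refine nodup_flatMap_of (fun x : Lb => match x with
        | Sum.inl a => a.1
        | Sum.inr p => p.1) List.nodup_range (fun i _ => by simp) ?_
    intro i _ b hb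
    simp only [List.mem_cons, List.not_mem_nil, or_false] at hb
    rcases hb with rfl | rfl <;> rfl
  · refine nodup_flatMap_of (fun x : Lb => match x with
        | Sum.inl a => a.1
        | Sum.inr p => p.1) List.nodup_range (fun i _ => ?_) ?_
    · refine nodup_flatMap_of (fun x : Lb => match x with
        | Sum.inl a => a.1
        | Sum.inr p => p.2.1) List.nodup_range (fun k _ => ?_) ?_
      · refine (List.Nodup.filter _ (by simp)).map ?_
        intro b b' h
        simpa using h
      · intro k _ x hx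
        rw [List.mem_map] at hx
        obtain ⟨b, _, rfl⟩ := hx
        rfl
    · intro k _ x hx
      simp only [List.mem_flatMap, List.mem_map] at hx
      obtain ⟨_, _, b, _, rfl⟩ := hx
      rfl
  · intro x hx y hy hxy
    subst hxy
    simp only [List.mem_flatMap, List.mem_map] at hy
    obtain ⟨_, _, _, _, b, _, rfl⟩ := hy
    simp at hx

/-- The reduction: the adjacency matrix of the graph. -/
def eqRed (φ : List C3) : List (List Bool) := mat (labE φ) (adjE (satL φ))

theorem satL_consistent {φ : List C3} (hφ : Distinct3 φ) (k i : ℕ)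
    (h : satL φ k i true = true) : satL φ k i false = false := by
  by_cases hk : k < φ.length
  · by_contra hcon
    have h2 : satL φ k i false = true := by simpa using hcon
    rw [satL_iff hk] at h h2
    obtain ⟨d1, d2, d3⟩ := hφ _ (List.getElem_mem hk)
    rcases h with h | h | h <;> rcases h2 with h2 | h2 | h2
    · rw [h] at h2; simp at h2
    · rw [h, h2] at d1; simp at d1
    · rw [h, h2] at d2; simp at d2
    · rw [h, h2] at d1; simp at d1
    · rw [h] at h2; simp at h2
    · rw [h, h2] at d3; simp at d3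
    · rw [h, h2] at d2; simp at d2
    · rw [h, h2] at d3; simp at d3
    · rw [h] at h2; simp at h2
  · exact satL_none (by omega) _ _

theorem satL_dummy {φ : List C3} (hφ : Bounded3 φ) (k : ℕ) (a : Bool) :
    satL φ k (3 * φ.length) a = false := by
  by_cases hk : k < φ.length
  · by_contra hcon
    have h2 : satL φ k (3 * φ.length) a = true := by simpa using hcon
    rw [satL_iff hk] at h2
    obtain ⟨d1, d2, d3⟩ := hφ _ (List.getElem_mem hk)
    rcases h2 with h2 | h2 | h2
    · rw [h2] at d1; simp at d1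
    · rw [h2] at d2; simp at d2
    · rw [h2] at d3; simp at d3
  · exact satL_none (by omega) _ _

theorem SAT3_iff {φ : List C3} (hφ : Bounded3 φ) : SAT3 φ ↔ ∃ τ : ℕ → Bool,
    ∀ k < φ.length, ∃ i < 3 * φ.length + 1, satL φ k i (τ i) = true := by
  unfold SAT3 Sat3V
  refine exists_congr fun τ => ?_
  constructor
  · intro h k hk
    obtain ⟨d1, d2, d3⟩ := hφ _ (List.getElem_mem hk)
    rcases h φ[k] (List.getElem_mem hk) with h | h | h
    · exact ⟨φ[k].1.2, by omega, (satL_iff hk _ _).2 (Or.inl (by rw [h]))⟩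
    · exact ⟨φ[k].2.1.2, by omega, (satL_iff hk _ _).2 (Or.inr (Or.inl (by rw [h])))⟩
    · exact ⟨φ[k].2.2.2, by omega, (satL_iff hk _ _).2 (Or.inr (Or.inr (by rw [h])))⟩
  · intro h c hc
    obtain ⟨k, hk, rfl⟩ := List.getElem_of_mem hc
    obtain ⟨i, _, hi⟩ := h k hk
    rw [satL_iff hk] at hi
    rcases hi with hi | hi | hi
    · left; rw [hi]
    · right; left; rw [hi]
    · right; right; rw [hi]

/-- Correctness: an unsatisfiable formula gives a graph in which every edge is in a strong
clique. -/
theorem eqRed_unsat {φ : List C3} (h1 : Distinct3 φ) (h2 : Bounded3 φ)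
    (hun : ¬ SAT3 φ) : EdgeStrong (matGraph (eqRed φ)) := by
  have e := matIso (labE φ) (adjE (satL φ)) (labE_nodup φ)
  rw [SAT3_iff h2] at hun
  push Not at hun
  refine EdgeStrong.of_iso e.symm (edgeStrong_of_unsat (mem_labE φ) (by omega)
    (satL_consistent h1) ?_)
  intro τ
  obtain ⟨k, hk, h⟩ := hun τ
  exact ⟨k, hk, fun i hi => by simpa using h i hi⟩

theorem eqRed_sat {φ : List C3} (h1 : Distinct3 φ) (h2 : Bounded3 φ) (h3 : φ ≠ [])
    (hsat : SAT3 φ) : ¬ Equistable (matGraph (eqRed φ)) := by
  have e := matIso (labE φ) (adjE (satL φ)) (labE_nodup φ)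
  obtain ⟨τ, hτ⟩ := (SAT3_iff h2).1 hsat
  intro h
  exact not_equistable_of_sat (mem_labE φ) (satL_consistent h1) (List.length_pos_iff.2 h3)
    (3 * φ.length) (by omega) (satL_dummy h2) τ hτ (Equistable.of_iso e h)

theorem eqRed_nonempty (φ : List C3) : Nonempty (Fin (eqRed φ).length) := by
  have h : (Sum.inl (0, false) : Lb) ∈ labE φ := (mem_labE φ _).2 (by simp [ValidE])
  have h2 : 0 < (labE φ).length := List.length_pos_of_mem h
  have h3 : (eqRed φ).length = (labE φ).length := by simp [eqRed, mat]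
  exact ⟨⟨0, by omega⟩⟩

/-- The graph of a formula is equistable exactly when the formula is unsatisfiable. -/
theorem eqRed_correct {φ : List C3} (h1 : Distinct3 φ) (h2 : Bounded3 φ) (h3 : φ ≠ []) :
    SAT3 φ ↔ ¬ Equistable (matGraph (eqRed φ)) := by
  refine ⟨eqRed_sat h1 h2 h3, fun h => ?_⟩
  by_contra hun
  have := eqRed_nonempty φ
  exact h (equistable_of_edgeStrong (eqRed_unsat h1 h2 hun))

/-! ### Polynomial time -/

section PolyTime

open Poly

theorem satL_poly {α : Type} [TEnc α] {f : α → List C3} {k i : α → ℕ} {a : α → Bool}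
    (hf : Poly f) (hk : Poly k) (hi : Poly i) (ha : Poly a) :
    Poly (fun x => satL (f x) (k x) (i x) (a x)) := by
  unfold satL
  fun_prop

theorem labE_poly : Poly labE := by
  have hr : Poly (fun φ : List C3 => List.range (3 * φ.length + 1)) :=
    (((UPoly.const 3).mul (UPoly.length Poly.id)).add (UPoly.const 1)).range
  have hr2 : Poly (fun φ : List C3 => List.range φ.length) := range_length Poly.id
  have h1 : Poly (fun φ : List C3 => (List.range (3 * φ.length + 1)).flatMap (fun i =>
      [(Sum.inl (i, false) : Lb), Sum.inl (i, true)])) :=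
    flatMap (F := fun (_ : List C3) i => [(Sum.inl (i, false) : Lb), Sum.inl (i, true)]) hr
      (by fun_prop)
  have h4 : Poly (fun p : (List C3 × ℕ) × ℕ =>
      ([false, true].filter (fun b => !satL p.1.1 p.2 p.1.2 b)).map
        (fun b => (Sum.inr (p.1.2, p.2, b) : Lb))) :=
    map (F := fun (p : (List C3 × ℕ) × ℕ) b => (Sum.inr (p.1.2, p.2, b) : Lb))
      (filter (p := fun (p : (List C3 × ℕ) × ℕ) b => !satL p.1.1 p.2 p.1.2 b) (const _)
        (not (satL_poly (fst (fst (fst id))) (snd (fst id)) (snd (fst (fst id))) (snd id))))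
      (by fun_prop)
  have h3 : Poly (fun p : List C3 × ℕ => (List.range p.1.length).flatMap fun k =>
      ([false, true].filter (fun b => !satL p.1 k p.2 b)).map
        (fun b => (Sum.inr (p.2, k, b) : Lb))) :=
    flatMap (F := fun (p : List C3 × ℕ) k =>
      ([false, true].filter (fun b => !satL p.1 k p.2 b)).map
        (fun b => (Sum.inr (p.2, k, b) : Lb))) (hr2.comp (fst id)) h4
  have h2 : Poly (fun φ : List C3 => (List.range (3 * φ.length + 1)).flatMap (fun i =>
      (List.range φ.length).flatMap fun k =>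
      ([false, true].filter (fun b => !satL φ k i b)).map
        (fun b => (Sum.inr (i, k, b) : Lb)))) :=
    flatMap (F := fun (φ : List C3) i => (List.range φ.length).flatMap fun k =>
      ([false, true].filter (fun b => !satL φ k i b)).map
        (fun b => (Sum.inr (i, k, b) : Lb))) hr h3
  exact append h1 h2

theorem adjE_poly : Poly (fun z : (List C3 × Lb) × Lb => adjE (satL z.1.1) z.1.2 z.2) := by
  have hLL : Poly (fun p : (((List C3 × Lb) × Lb) × (ℕ × Bool)) × (ℕ × Bool) =>
      decide (p.1.2.1 = p.2.1)) := by fun_prop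
  have hLR : Poly (fun p : (((List C3 × Lb) × Lb) × (ℕ × Bool)) × (ℕ × ℕ × Bool) =>
      (decide (p.1.2.1 = p.2.1) && decide (p.1.2.2 ≠ p.2.2.2)) ||
        satL p.1.1.1.1 p.2.2.1 p.1.2.1 p.1.2.2) :=
    or (by fun_prop) (satL_poly (by fun_prop) (by fun_prop) (by fun_prop) (by fun_prop))
  have hRR : Poly (fun p : (((List C3 × Lb) × Lb) × (ℕ × ℕ × Bool)) × (ℕ × ℕ × Bool) =>
      decide (p.1.2.2.1 ≠ p.2.2.1) || decide (p.1.2.1 = p.2.1)) := by fun_prop
  have h1 := sumCases (o := fun p : ((List C3 × Lb) × Lb) × (ℕ × Bool) => p.1.2)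
    (g := fun p b => decide (p.2.1 = b.1))
    (h := fun p q => (decide (p.2.1 = q.1) && decide (p.2.2 ≠ q.2.2)) ||
        satL p.1.1.1 q.2.1 p.2.1 p.2.2) (snd (fst id)) hLL hLR
  have h2 := sumCases (o := fun p : ((List C3 × Lb) × Lb) × (ℕ × ℕ × Bool) => p.1.2)
    (g := fun _ (_ : ℕ × Bool) => false)
    (h := fun p q => decide (p.2.2.1 ≠ q.2.1) || decide (p.2.1 = q.1)) (snd (fst id))
      (const false) hRR
  refine (sumCases (o := fun z : (List C3 × Lb) × Lb => z.1.2)
    (g := fun z a => match z.2 with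
      | Sum.inl b => decide (a.1 = b.1)
      | Sum.inr q => (decide (a.1 = q.1) && decide (a.2 ≠ q.2.2)) || satL z.1.1 q.2.1 a.1 a.2)
    (h := fun z p => match z.2 with
      | Sum.inl _ => false
      | Sum.inr q => decide (p.2.1 ≠ q.2.1) || decide (p.1 = q.1))
    (snd (fst id)) (h1.congr ?_) (h2.congr ?_)).congr ?_
  · rintro ⟨⟨x, y⟩, a⟩
    rcases y with b | q <;> rfl
  · rintro ⟨⟨x, y⟩, a⟩
    rcases y with b | q <;> rfl
  rintro ⟨⟨φ, x⟩, y⟩
  rcases x with a | p <;> rcases y with b | q <;> rfl

theorem eqRed_poly : Poly eqRed :=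
  mat_poly (adj := fun φ u v => adjE (satL φ) u v) labE_poly adjE_poly

end PolyTime

/-- Non-equistability is hard. -/
theorem hardI_not_equistable : HardI (fun M : List (List Bool) => ¬ Equistable (matGraph M)) :=
  (hardPr_SAT3b.trans (Pr' := fun _ => True) eqRed_poly (fun _ _ => trivial)
    (fun _ h => eqRed_correct h.1 h.2.1 h.2.2)).toHardI

end Pool.Agent.H609R2
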