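import Pool.Agent.H609R2.EqDefs

/-!
# A graph that is equistable exactly when a formula is unsatisfiable
-/

namespace Pool.Agent.H609R2

open Pool.Agent.H622R2

/-- Labels of the vertices: `inl (i, a)` means that the variable `i` has the value `a`, and
`inr (i, k, b)` means that the clause `k` is falsified and the variable `i` has the value `b`. -/
abbrev Lb := (ℕ × Bool) ⊕ (ℕ × ℕ × Bool)

/-- Adjacency test; `L k i a` says that the value `a` of the variable `i` satisfies the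
clause `k`. -/
def adjE (L : ℕ → ℕ → Bool → Bool) : Lb → Lb → Bool
  | Sum.inl x, Sum.inl y => decide (x.1 = y.1)
  | Sum.inl x, Sum.inr y => (decide (x.1 = y.1) && decide (x.2 ≠ y.2.2)) || L y.2.1 x.1 x.2
  | Sum.inr _, Sum.inl _ => false
  | Sum.inr x, Sum.inr y => decide (x.2.1 ≠ y.2.1) || decide (x.1 = y.1)

/-- The labels that are used. -/
def ValidE (n m : ℕ) (L : ℕ → ℕ → Bool → Bool) : Lb → Prop
  | Sum.inl x => x.1 < n
  | Sum.inr y => y.1 < n ∧ y.2.1 < m ∧ L y.2.1 y.1 y.2.2 = false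

section

variable {n m : ℕ} {L : ℕ → ℕ → Bool → Bool} {vs : List Lb}

/-- Adjacency of two labels. -/
def AdjP (L : ℕ → ℕ → Bool → Bool) (x y : Lb) : Prop :=
  x ≠ y ∧ (adjE L x y = true ∨ adjE L y x = true)

theorem adj_iff (u v : {x // x ∈ vs}) : (labGraph vs (adjE L)).Adj u v ↔ AdjP L u.1 v.1 := by
  simp [labGraph, AdjP, Subtype.ext_iff]

theorem AdjP.symm {x y : Lb} (h : AdjP L x y) : AdjP L y x := ⟨h.1.symm, h.2.symm⟩

theorem adjP_ll (i j : ℕ) (a b : Bool) :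
    AdjP L (Sum.inl (i, a)) (Sum.inl (j, b)) ↔ i = j ∧ a ≠ b := by
  simp only [AdjP, adjE, ne_eq, Sum.inl.injEq, Prod.mk.injEq, not_and, decide_eq_true_eq]
  constructor
  · rintro ⟨h1, h2 | h2⟩
    · exact ⟨h2, h1 h2⟩
    · exact ⟨h2.symm, h1 h2.symm⟩
  · rintro ⟨h1, h2⟩
    exact ⟨fun _ => h2, Or.inl h1⟩

theorem adjP_lr (i j k : ℕ) (a b : Bool) :
    AdjP L (Sum.inl (i, a)) (Sum.inr (j, k, b)) ↔ (i = j ∧ a ≠ b) ∨ L k i a = true := by
  simp [AdjP, adjE]

theorem adjP_rr (i j k l : ℕ) (a b : Bool) :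
    AdjP L (Sum.inr (i, k, a)) (Sum.inr (j, l, b)) ↔ k ≠ l ∨ (i = j ∧ a ≠ b) := by
  simp only [AdjP, adjE, ne_eq, Sum.inr.injEq, Prod.mk.injEq, not_and, Bool.or_eq_true,
    decide_eq_true_eq]
  constructor
  · rintro ⟨h1, (h2 | h2) | (h2 | h2)⟩
    · exact Or.inl h2
    · by_cases h : k = l
      · exact Or.inr ⟨h2, h1 h2 h⟩
      · exact Or.inl h
    · exact Or.inl (Ne.symm h2)
    · by_cases h : k = l
      · exact Or.inr ⟨h2.symm, h1 h2.symm h⟩
      · exact Or.inl h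
  · rintro (h | ⟨h1, h2⟩)
    · exact ⟨fun _ h' => absurd h' h, Or.inl (Or.inl h)⟩
    · exact ⟨fun _ _ => h2, Or.inl (Or.inr h1)⟩

/-- A set of labels given by a predicate is a maximal stable set. -/
theorem maximal_of (P : Lb → Prop) (hvs : ∀ x, x ∈ vs ↔ ValidE n m L x)
    (h1 : ∀ x y, ValidE n m L x → ValidE n m L y → P x → P y → ¬ AdjP L x y)
    (h2 : ∀ x, ValidE n m L x → ¬ P x → ∃ y, ValidE n m L y ∧ P y ∧ AdjP L x y) :
    Maximal (labGraph vs (adjE L)).IsIndepSet {x : {x // x ∈ vs} | P x.1} := by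
  refine ⟨?_, ?_⟩
  · intro x hx y hy _ hadj
    exact h1 x.1 y.1 ((hvs _).1 x.2) ((hvs _).1 y.2) hx hy ((adj_iff _ _).1 hadj)
  · intro T hT hST x hx
    by_contra hPx
    obtain ⟨y, hy1, hy2, hy3⟩ := h2 x.1 ((hvs _).1 x.2) hPx
    have hyT : (⟨y, (hvs y).2 hy1⟩ : {x // x ∈ vs}) ∈ T := hST hy2
    exact hT hx hyT (fun h => hy3.1 (congrArg Subtype.val h)) ((adj_iff _ _).2 hy3)

/-- A satisfying assignment is a maximal stable set. -/
theorem maximal_sat (hvs : ∀ x, x ∈ vs ↔ ValidE n m L x) (τ : ℕ → Bool)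
    (hτ : ∀ k < m, ∃ i < n, L k i (τ i) = true) :
    Maximal (labGraph vs (adjE L)).IsIndepSet
      {x : {x // x ∈ vs} | ∃ i, x.1 = Sum.inl (i, τ i)} := by
  refine maximal_of (fun x => ∃ i, x = Sum.inl (i, τ i)) hvs ?_ ?_
  · rintro _ _ _ _ ⟨i, rfl⟩ ⟨j, rfl⟩ h
    rw [adjP_ll] at h
    exact h.2 (by rw [h.1])
  · rintro (⟨i, a⟩ | ⟨i, k, b⟩) hx hP
    · refine ⟨Sum.inl (i, τ i), hx, ⟨i, rfl⟩, (adjP_ll _ _ _ _).2 ⟨rfl, ?_⟩⟩
      rintro rfl
      exact hP ⟨i, rfl⟩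
    · obtain ⟨j, hj, hj'⟩ := hτ k hx.2.1
      exact ⟨Sum.inl (j, τ j), hj, ⟨j, rfl⟩, ((adjP_lr _ _ _ _ _).2 (Or.inr hj')).symm⟩

/-- An assignment together with a clause that it falsifies is a maximal stable set. -/
theorem maximal_unsat (hvs : ∀ x, x ∈ vs ↔ ValidE n m L x) (hn : 0 < n) (τ : ℕ → Bool) (k : ℕ)
    (hk : k < m) (hτ : ∀ i < n, L k i (τ i) = false) :
    Maximal (labGraph vs (adjE L)).IsIndepSet
      {x : {x // x ∈ vs} | (∃ i, x.1 = Sum.inl (i, τ i)) ∨ ∃ i, x.1 = Sum.inr (i, k, τ i)} := by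
  refine maximal_of (fun x => (∃ i, x = Sum.inl (i, τ i)) ∨ ∃ i, x = Sum.inr (i, k, τ i)) hvs ?_ ?_
  · rintro x y hx hy (⟨i, rfl⟩ | ⟨i, rfl⟩) (⟨j, rfl⟩ | ⟨j, rfl⟩) h
    · rw [adjP_ll] at h
      exact h.2 (by rw [h.1])
    · rw [adjP_lr] at h
      rcases h with h | h
      · exact h.2 (by rw [h.1])
      · rw [hτ i hx] at h
        exact absurd h (by simp)
    · have h' := (adjP_lr _ _ _ _ _).1 h.symm
      rcases h' with h' | h'
      · exact h'.2 (by rw [h'.1])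
      · rw [hτ j hy] at h'
        exact absurd h' (by simp)
    · rw [adjP_rr] at h
      rcases h with h | h
      · exact h rfl
      · exact h.2 (by rw [h.1])
  · rintro (⟨i, a⟩ | ⟨i, l, b⟩) hx hP
    · refine ⟨Sum.inl (i, τ i), hx, Or.inl ⟨i, rfl⟩, (adjP_ll _ _ _ _).2 ⟨rfl, ?_⟩⟩
      rintro rfl
      exact hP (Or.inl ⟨i, rfl⟩)
    · by_cases hl : l = k
      · subst hl
        refine ⟨Sum.inr (i, l, τ i), ⟨hx.1, hk, hτ i hx.1⟩, Or.inr ⟨i, rfl⟩,
          (adjP_rr _ _ _ _ _ _).2 (Or.inr ⟨rfl, ?_⟩)⟩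
        rintro rfl
        exact hP (Or.inr ⟨i, rfl⟩)
      · exact ⟨Sum.inr (0, k, τ 0), ⟨hn, hk, hτ 0 hn⟩, Or.inr ⟨0, rfl⟩,
          (adjP_rr _ _ _ _ _ _).2 (Or.inl hl)⟩

/-- Membership of a label in a set of vertices. -/
def In (S : Set {x // x ∈ vs}) (x : Lb) : Prop := ∃ h : x ∈ vs, (⟨x, h⟩ : {x // x ∈ vs}) ∈ S

theorem In.not_adj {S : Set {x // x ∈ vs}} (hS : (labGraph vs (adjE L)).IsIndepSet S) {x y : Lb}
    (hx : In S x) (hy : In S y) : ¬ AdjP L x y := by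
  intro h
  obtain ⟨hx, hxS⟩ := hx
  obtain ⟨hy, hyS⟩ := hy
  exact hS hxS hyS (fun e => h.1 (congrArg Subtype.val e)) ((adj_iff _ _).2 h)

theorem exists_adj {S : Set {x // x ∈ vs}} (hS : Maximal (labGraph vs (adjE L)).IsIndepSet S)
    {x : Lb} (hx : x ∈ vs) (hxS : ¬ In S x) : ∃ y, In S y ∧ AdjP L x y := by
  by_contra hcon
  push Not at hcon
  apply hxS
  refine ⟨hx, ?_⟩
  have h1 : (labGraph vs (adjE L)).IsIndepSet (insert ⟨x, hx⟩ S) := by
    intro a ha b hb hab hadj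
    rcases ha with rfl | ha
    · rcases hb with rfl | hb
      · exact hab rfl
      · exact hcon b.1 ⟨b.2, hb⟩ ((adj_iff _ _).1 hadj)
    · rcases hb with rfl | hb
      · exact hcon a.1 ⟨a.2, ha⟩ ((adj_iff _ _).1 hadj.symm)
      · exact hS.1 ha hb hab hadj
  exact hS.2 h1 (Set.subset_insert _ _) (Set.mem_insert _ _)

/-- If the formula is unsatisfiable, every maximal stable set consists of an assignment and a
clause that it falsifies. -/
theorem total_of_unsat (hvs : ∀ x, x ∈ vs ↔ ValidE n m L x) (hn : 0 < n)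
    (hL : ∀ k i, L k i true = true → L k i false = false)
    (hun : ∀ τ : ℕ → Bool, ∃ k < m, ∀ i < n, L k i (τ i) = false)
    {S : Set {x // x ∈ vs}} (hS : Maximal (labGraph vs (adjE L)).IsIndepSet S) :
    ∃ (τ : ℕ → Bool) (k : ℕ), ∀ i < n, In S (Sum.inl (i, τ i)) ∧ In S (Sum.inr (i, k, τ i)) := by
  classical
  -- value not satisfying the clause
  have hval : ∀ k i, ∃ b, L k i b = false := by
    intro k i
    by_cases h : L k i true = true
    · exact ⟨false, hL k i h⟩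
    · exact ⟨true, by simpa using h⟩
  by_cases hex : ∃ (i0 k : ℕ) (b0 : Bool), In S (Sum.inr (i0, k, b0))
  · obtain ⟨i0, k, b0, h0⟩ := hex
    have hkm : k < m := ((hvs _).1 h0.1).2.1
    have hk : ∀ i l b, In S (Sum.inr (i, l, b)) → l = k := by
      intro i l b h
      by_contra hne
      exact In.not_adj hS.1 h h0 ((adjP_rr _ _ _ _ _ _).2 (Or.inl hne))
    have hfal : ∀ i a, In S (Sum.inl (i, a)) → L k i a = false := by
      intro i a h
      by_contra hne
      exact In.not_adj hS.1 h h0 ((adjP_lr _ _ _ _ _).2 (Or.inr (by simpa using hne)))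
    -- adding literals
    have hadd : ∀ i < n, ∀ b, L k i b = false → (∀ c, In S (Sum.inr (i, k, c)) → c = b) →
        ∃ a, In S (Sum.inl (i, a)) := by
      intro i hi b hb hc
      by_contra hcon
      push Not at hcon
      obtain ⟨y, hy, hadj⟩ := exists_adj hS ((hvs (Sum.inl (i, b))).2 hi) (hcon b)
      rcases y with ⟨j, a⟩ | ⟨j, l, c⟩
      · rw [adjP_ll] at hadj
        obtain ⟨rfl, _⟩ := hadj
        exact hcon _ hy
      · obtain rfl := hk _ _ _ hy
        rw [adjP_lr] at hadj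
        rcases hadj with ⟨rfl, hne⟩ | hadj
        · exact hne (hc _ hy).symm
        · rw [hb] at hadj
          exact absurd hadj (by simp)
    have hV : ∀ i < n, ∃ a, In S (Sum.inl (i, a)) := by
      intro i hi
      by_cases hK : ∃ b, In S (Sum.inr (i, k, b))
      · obtain ⟨b, hb⟩ := hK
        refine hadd i hi b ((hvs _).1 hb.1).2.2 (fun c hc => ?_)
        by_contra hne
        exact In.not_adj hS.1 hc hb ((adjP_rr _ _ _ _ _ _).2 (Or.inr ⟨rfl, hne⟩))
      · push Not at hK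
        obtain ⟨b, hb⟩ := hval k i
        exact hadd i hi b hb (fun c hc => absurd hc (hK c))
    choose! τ hτ using hV
    refine ⟨τ, k, fun i hi => ⟨hτ i hi, ?_⟩⟩
    by_contra hcon
    obtain ⟨y, hy, hadj⟩ := exists_adj hS
      ((hvs (Sum.inr (i, k, τ i))).2 ⟨hi, hkm, hfal _ _ (hτ i hi)⟩) hcon
    rcases y with ⟨j, a⟩ | ⟨j, l, c⟩
    · have hadj' := (adjP_lr _ _ _ _ _).1 hadj.symm
      rcases hadj' with ⟨rfl, hne⟩ | hadj'
      · exact In.not_adj hS.1 hy (hτ j hi) ((adjP_ll _ _ _ _).2 ⟨rfl, hne⟩)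
      · rw [hfal _ _ hy] at hadj'
        exact absurd hadj' (by simp)
    · obtain rfl := hk _ _ _ hy
      rw [adjP_rr] at hadj
      rcases hadj with hadj | ⟨rfl, hne⟩
      · exact hadj rfl
      · exact In.not_adj hS.1 (hτ i hi) hy ((adjP_lr _ _ _ _ _).2 (Or.inl ⟨rfl, hne⟩))
  · exfalso
    push Not at hex
    have hV : ∀ i < n, ∃ a, In S (Sum.inl (i, a)) := by
      intro i hi
      by_contra hcon
      push Not at hcon
      obtain ⟨y, hy, hadj⟩ := exists_adj hS ((hvs (Sum.inl (i, true))).2 hi) (hcon true)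
      rcases y with ⟨j, a⟩ | ⟨j, l, c⟩
      · rw [adjP_ll] at hadj
        obtain ⟨rfl, _⟩ := hadj
        exact hcon _ hy
      · exact hex _ _ _ hy
    choose! τ hτ using hV
    obtain ⟨k, hk, hkf⟩ := hun τ
    obtain ⟨y, hy, hadj⟩ := exists_adj hS
      ((hvs (Sum.inr (0, k, τ 0))).2 ⟨hn, hk, hkf 0 hn⟩) (hex _ _ _)
    rcases y with ⟨j, a⟩ | ⟨j, l, c⟩
    · have hj : j < n := (hvs _).1 hy.1
      have haj : a = τ j := by
        by_contra hne
        exact In.not_adj hS.1 hy (hτ j hj) ((adjP_ll _ _ _ _).2 ⟨rfl, hne⟩)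
      subst haj
      have hadj' := (adjP_lr _ _ _ _ _).1 hadj.symm
      rcases hadj' with ⟨rfl, hne⟩ | hadj'
      · exact hne rfl
      · rw [hkf _ hj] at hadj'
        exact absurd hadj' (by simp)
    · exact hex _ _ _ hy

/-- A predicate on labels gives a strong clique. -/
theorem strong_of (P : Lb → Prop)
    (h1 : ∀ x y, P x → P y → x ≠ y → AdjP L x y)
    (h2 : ∀ S : Set {x // x ∈ vs}, Maximal (labGraph vs (adjE L)).IsIndepSet S →
      ∃ x, P x ∧ In S x) :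
    IsStrongClique (labGraph vs (adjE L)) {x : {x // x ∈ vs} | P x.1} := by
  refine ⟨?_, ?_⟩
  · intro x hx y hy hxy
    exact (adj_iff _ _).2 (h1 _ _ hx hy (fun h => hxy (Subtype.ext h)))
  · intro S hS
    obtain ⟨x, hPx, hx, hxS⟩ := h2 S hS
    exact ⟨⟨x, hx⟩, hPx, hxS⟩

/-- If the formula is unsatisfiable, every edge is in a strong clique. -/
theorem edgeStrong_of_unsat (hvs : ∀ x, x ∈ vs ↔ ValidE n m L x) (hn : 0 < n)
    (hL : ∀ k i, L k i true = true → L k i false = false)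
    (hun : ∀ τ : ℕ → Bool, ∃ k < m, ∀ i < n, L k i (τ i) = false) :
    EdgeStrong (labGraph vs (adjE L)) := by
  have htot := fun S hS => total_of_unsat (S := S) hvs hn hL hun hS
  -- edges between an `inl` and an `inr`
  have key : ∀ x y : {x // x ∈ vs}, (labGraph vs (adjE L)).Adj x y →
      ∀ (z : ℕ × Bool) (u : ℕ × ℕ × Bool), x.1 = Sum.inl z → y.1 = Sum.inr u →
      ∃ C : Set {x // x ∈ vs}, IsStrongClique (labGraph vs (adjE L)) C ∧ x ∈ C ∧ y ∈ C := by
    rintro ⟨x, hx⟩ ⟨y, hy⟩ hadj ⟨i, a⟩ ⟨j, k, b⟩ rfl rfl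
    rw [adj_iff, adjP_lr] at hadj
    have hi : i < n := (hvs _).1 hx
    have hj : j < n ∧ k < m ∧ L k j b = false := (hvs _).1 hy
    by_cases hij : i = j
    · subst hij
      have hab : a ≠ b := by
        rcases hadj with h | h
        · exact h.2
        · rintro rfl
          rw [hj.2.2] at h
          exact absurd h (by simp)
      refine ⟨_, strong_of (fun x => x = Sum.inl (i, a) ∨ ∃ l, x = Sum.inr (i, l, !a)) ?_ ?_,
        Or.inl rfl, Or.inr ⟨k, ?_⟩⟩
      · rintro _ _ (rfl | ⟨l, rfl⟩) (rfl | ⟨l', rfl⟩) hne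
        · exact absurd rfl hne
        · exact (adjP_lr _ _ _ _ _).2 (Or.inl ⟨rfl, by simp⟩)
        · exact ((adjP_lr _ _ _ _ _).2 (Or.inl ⟨rfl, by simp⟩)).symm
        · refine (adjP_rr _ _ _ _ _ _).2 (Or.inl ?_)
          rintro rfl
          exact hne rfl
      · intro S hS
        obtain ⟨τ, k', h⟩ := htot S hS
        by_cases hτ : τ i = a
        · exact ⟨_, Or.inl rfl, by rw [← hτ]; exact (h i hi).1⟩
        · have hτ' : τ i = !a := by
            cases a <;> simpa using hτ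
          exact ⟨_, Or.inr ⟨k', rfl⟩, by rw [← hτ']; exact (h i hi).2⟩
      · have hb : b = !a := by cases a <;> cases b <;> simp at hab ⊢
        change (Sum.inr (i, k, b) : Lb) = Sum.inr (i, k, !a)
        rw [hb]
    · have hLk : L k i a = true := by
        rcases hadj with h | h
        · exact absurd h.1 hij
        · exact h
      refine ⟨_, strong_of (fun x => x = Sum.inl (i, a) ∨ (∃ c, L k j c = false ∧
        x = Sum.inr (j, k, c)) ∨ ∃ l, l ≠ k ∧ x = Sum.inr (i, l, !a)) ?_ ?_,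
        Or.inl rfl, Or.inr (Or.inl ⟨b, hj.2.2, rfl⟩)⟩
      · rintro _ _ (rfl | ⟨c, hc, rfl⟩ | ⟨l, hl, rfl⟩) (rfl | ⟨c', hc', rfl⟩ | ⟨l', hl', rfl⟩) hne
        · exact absurd rfl hne
        · exact (adjP_lr _ _ _ _ _).2 (Or.inr hLk)
        · exact (adjP_lr _ _ _ _ _).2 (Or.inl ⟨rfl, by simp⟩)
        · exact ((adjP_lr _ _ _ _ _).2 (Or.inr hLk)).symm
        · refine (adjP_rr _ _ _ _ _ _).2 (Or.inr ⟨rfl, ?_⟩)
          rintro rfl
          exact hne rfl
        · exact (adjP_rr _ _ _ _ _ _).2 (Or.inl hl'.symm)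
        · exact ((adjP_lr _ _ _ _ _).2 (Or.inl ⟨rfl, by simp⟩)).symm
        · exact (adjP_rr _ _ _ _ _ _).2 (Or.inl hl)
        · refine (adjP_rr _ _ _ _ _ _).2 (Or.inl ?_)
          rintro rfl
          exact hne rfl
      · intro S hS
        obtain ⟨τ, k', h⟩ := htot S hS
        by_cases hτ : τ i = a
        · exact ⟨_, Or.inl rfl, by rw [← hτ]; exact (h i hi).1⟩
        · have hτ' : τ i = !a := by
            cases a <;> simpa using hτ
          by_cases hk : k' = k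
          · subst hk
            have h2 := (h j hj.1).2
            exact ⟨_, Or.inr (Or.inl ⟨τ j, ((hvs _).1 h2.1).2.2, rfl⟩), h2⟩
          · exact ⟨_, Or.inr (Or.inr ⟨k', hk, rfl⟩), by rw [← hτ']; exact (h i hi).2⟩
  intro x y hadj
  obtain ⟨x, hx⟩ := x
  obtain ⟨y, hy⟩ := y
  rcases x with ⟨i, a⟩ | ⟨i, k, a⟩ <;> rcases y with ⟨j, b⟩ | ⟨j, l, b⟩
  · rw [adj_iff, adjP_ll] at hadj
    obtain ⟨rfl, hab⟩ := hadj
    have hi : i < n := (hvs _).1 hx
    refine ⟨_, strong_of (fun x => ∃ c, x = Sum.inl (i, c)) ?_ ?_, ⟨a, rfl⟩, ⟨b, rfl⟩⟩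
    · rintro _ _ ⟨c, rfl⟩ ⟨d, rfl⟩ hne
      refine (adjP_ll _ _ _ _).2 ⟨rfl, ?_⟩
      rintro rfl
      exact hne rfl
    · intro S hS
      obtain ⟨τ, k', h⟩ := htot S hS
      exact ⟨_, ⟨τ i, rfl⟩, (h i hi).1⟩
  · exact key _ _ hadj _ _ rfl rfl
  · obtain ⟨C, h1, h2, h3⟩ := key _ _ hadj.symm _ _ rfl rfl
    exact ⟨C, h1, h3, h2⟩
  · rw [adj_iff, adjP_rr] at hadj
    have hi : i < n := ((hvs _).1 hx).1
    have hj : j < n := ((hvs _).1 hy).1
    by_cases hij : i = j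
    · subst hij
      refine ⟨_, strong_of (fun x => ∃ l c, x = Sum.inr (i, l, c)) ?_ ?_, ⟨k, a, rfl⟩,
        ⟨l, b, rfl⟩⟩
      · rintro _ _ ⟨l, c, rfl⟩ ⟨l', c', rfl⟩ hne
        refine (adjP_rr _ _ _ _ _ _).2 ?_
        by_cases hl : l = l'
        · right
          refine ⟨rfl, ?_⟩
          rintro rfl
          exact hne (by rw [hl])
        · exact Or.inl hl
      · intro S hS
        obtain ⟨τ, k', h⟩ := htot S hS
        exact ⟨_, ⟨k', τ i, rfl⟩, (h i hi).2⟩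
    · have hkl : k ≠ l := by
        rcases hadj with h | h
        · exact h
        · exact absurd h.1 hij
      refine ⟨_, strong_of (fun x => (∃ c, x = Sum.inr (i, k, c)) ∨
        ∃ l', l' ≠ k ∧ ∃ c, x = Sum.inr (j, l', c)) ?_ ?_, Or.inl ⟨a, rfl⟩,
        Or.inr ⟨l, hkl.symm, b, rfl⟩⟩
      · rintro _ _ (⟨c, rfl⟩ | ⟨l1, hl1, c, rfl⟩) (⟨c', rfl⟩ | ⟨l2, hl2, c', rfl⟩) hne
        · refine (adjP_rr _ _ _ _ _ _).2 (Or.inr ⟨rfl, ?_⟩)
          rintro rfl
          exact hne rfl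
        · exact (adjP_rr _ _ _ _ _ _).2 (Or.inl hl2.symm)
        · exact (adjP_rr _ _ _ _ _ _).2 (Or.inl hl1)
        · refine (adjP_rr _ _ _ _ _ _).2 ?_
          by_cases hl : l1 = l2
          · right
            refine ⟨rfl, ?_⟩
            rintro rfl
            exact hne (by rw [hl])
          · exact Or.inl hl
      · intro S hS
        obtain ⟨τ, k', h⟩ := htot S hS
        by_cases hk : k' = k
        · subst hk
          exact ⟨_, Or.inl ⟨τ i, rfl⟩, (h i hi).2⟩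
        · exact ⟨_, Or.inr ⟨k', hk, τ j, rfl⟩, (h j hj).2⟩

/-- If the formula is satisfiable, the graph is not equistable. -/
theorem not_equistable_of_sat (hvs : ∀ x, x ∈ vs ↔ ValidE n m L x)
    (hL : ∀ k i, L k i true = true → L k i false = false) (hm : 0 < m)
    (i0 : ℕ) (hi0 : i0 < n) (hd : ∀ k a, L k i0 a = false) (τ : ℕ → Bool)
    (hτ : ∀ k < m, ∃ i < n, L k i (τ i) = true) : ¬ Equistable (labGraph vs (adjE L)) := by
  classical
  rintro ⟨w, t, ht, h⟩
  have hn : 0 < n := by omega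
  have hval : ∀ i, ∃ b, L 0 i b = false := by
    intro i
    by_cases h : L 0 i true = true
    · exact ⟨false, hL 0 i h⟩
    · exact ⟨true, by simpa using h⟩
  choose ρ0 hρ0 using hval
  let ρ : ℕ → Bool := fun i => if i = i0 then τ i0 else ρ0 i
  have hρ : ∀ i < n, L 0 i (ρ i) = false := by
    intro i _
    by_cases hi : i = i0
    · subst hi
      simpa [ρ] using hd 0 _
    · simpa [ρ, hi] using hρ0 i
  let τ' : ℕ → Bool := fun i => if i = i0 then !τ i0 else τ i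
  have hτ' : ∀ k < m, ∃ i < n, L k i (τ' i) = true := by
    intro k hk
    obtain ⟨i, hi, hLi⟩ := hτ k hk
    refine ⟨i, hi, ?_⟩
    have hne : i ≠ i0 := by
      rintro rfl
      rw [hd] at hLi
      exact absurd hLi (by simp)
    simpa [τ', hne] using hLi
  let x : {x // x ∈ vs} := ⟨Sum.inl (i0, τ i0), (hvs _).2 hi0⟩
  let y : {x // x ∈ vs} := ⟨Sum.inl (i0, !τ i0), (hvs _).2 hi0⟩
  let R1 : Finset {x // x ∈ vs} := Finset.univ.filter (fun z => ∃ i, i ≠ i0 ∧
    z.1 = Sum.inl (i, τ i))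
  let R3 : Finset {x // x ∈ vs} := Finset.univ.filter (fun z => (∃ i, i ≠ i0 ∧
    z.1 = Sum.inl (i, ρ i)) ∨ ∃ i, z.1 = Sum.inr (i, 0, ρ i))
  have hx1 : x ∉ R1 := by
    simp only [R1, Finset.mem_filter, Finset.mem_univ, true_and, x, Sum.inl.injEq, Prod.mk.injEq]
    rintro ⟨i, hi, hi', _⟩
    exact hi hi'.symm
  have hy1 : y ∉ R1 := by
    simp only [R1, Finset.mem_filter, Finset.mem_univ, true_and, y, Sum.inl.injEq, Prod.mk.injEq]
    rintro ⟨i, hi, hi', _⟩
    exact hi hi'.symm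
  have hx3 : x ∉ R3 := by
    simp only [R3, Finset.mem_filter, Finset.mem_univ, true_and, x, Sum.inl.injEq, Prod.mk.injEq,
      reduceCtorEq, exists_false, or_false]
    rintro ⟨i, hi, hi', _⟩
    exact hi hi'.symm
  have hy3 : y ∉ R3 := by
    simp only [R3, Finset.mem_filter, Finset.mem_univ, true_and, y, Sum.inl.injEq, Prod.mk.injEq,
      reduceCtorEq, exists_false, or_false]
    rintro ⟨i, hi, hi', _⟩
    exact hi hi'.symm
  have e1 : ((insert x R1 : Finset {x // x ∈ vs}) : Set {x // x ∈ vs}) =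
      {x : {x // x ∈ vs} | ∃ i, x.1 = Sum.inl (i, τ i)} := by
    ext z
    simp only [Finset.coe_insert, Set.mem_insert_iff, Finset.mem_coe, R1, Finset.mem_filter,
      Finset.mem_univ, true_and, Set.mem_ofPred_eq, x, Subtype.ext_iff]
    constructor
    · rintro (h | ⟨i, _, h⟩)
      · exact ⟨i0, h⟩
      · exact ⟨i, h⟩
    · rintro ⟨i, h⟩
      by_cases hi : i = i0
      · subst hi; exact Or.inl h
      · exact Or.inr ⟨i, hi, h⟩
  have e2 : ((insert y R1 : Finset {x // x ∈ vs}) : Set {x // x ∈ vs}) =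
      {x : {x // x ∈ vs} | ∃ i, x.1 = Sum.inl (i, τ' i)} := by
    ext z
    simp only [Finset.coe_insert, Set.mem_insert_iff, Finset.mem_coe, R1, Finset.mem_filter,
      Finset.mem_univ, true_and, Set.mem_ofPred_eq, y, Subtype.ext_iff]
    constructor
    · rintro (h | ⟨i, hi, h⟩)
      · exact ⟨i0, by simpa [τ'] using h⟩
      · exact ⟨i, by simpa [τ', hi] using h⟩
    · rintro ⟨i, h⟩
      by_cases hi : i = i0
      · subst hi; exact Or.inl (by simpa [τ'] using h)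
      · exact Or.inr ⟨i, hi, by simpa [τ', hi] using h⟩
  have e3 : ((insert x R3 : Finset {x // x ∈ vs}) : Set {x // x ∈ vs}) =
      {x : {x // x ∈ vs} | (∃ i, x.1 = Sum.inl (i, ρ i)) ∨ ∃ i, x.1 = Sum.inr (i, 0, ρ i)} := by
    ext z
    simp only [Finset.coe_insert, Set.mem_insert_iff, Finset.mem_coe, R3, Finset.mem_filter,
      Finset.mem_univ, true_and, Set.mem_ofPred_eq, x, Subtype.ext_iff]
    constructor
    · rintro (h | ⟨i, _, h⟩ | h)
      · exact Or.inl ⟨i0, by simpa [ρ] using h⟩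
      · exact Or.inl ⟨i, h⟩
      · exact Or.inr h
    · rintro (⟨i, h⟩ | h)
      · by_cases hi : i = i0
        · subst hi; exact Or.inl (by simpa [ρ] using h)
        · exact Or.inr (Or.inl ⟨i, hi, h⟩)
      · exact Or.inr (Or.inr h)
  have s1 := (h (insert x R1)).1 (by rw [e1]; exact maximal_sat hvs τ hτ)
  have s2 := (h (insert y R1)).1 (by rw [e2]; exact maximal_sat hvs τ' hτ')
  have s3 := (h (insert x R3)).1 (by rw [e3]; exact maximal_unsat hvs hn ρ 0 hm hρ)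
  rw [Finset.sum_insert hx1] at s1
  rw [Finset.sum_insert hy1] at s2
  rw [Finset.sum_insert hx3] at s3
  have s4 : ∑ v ∈ insert y R3, w v = t := by
    rw [Finset.sum_insert hy3]
    omega
  have hmax := (h (insert y R3)).2 s4
  let p : {x // x ∈ vs} := ⟨Sum.inr (i0, 0, ρ i0), (hvs _).2 ⟨hi0, hm, hρ i0 hi0⟩⟩
  have hp : p ∈ ((insert y R3 : Finset {x // x ∈ vs}) : Set {x // x ∈ vs}) := by
    simp only [Finset.coe_insert, Set.mem_insert_iff, Finset.mem_coe]
    right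
    simp only [R3, Finset.mem_filter, Finset.mem_univ, true_and]
    exact Or.inr ⟨i0, rfl⟩
  have hy : y ∈ ((insert y R3 : Finset {x // x ∈ vs}) : Set {x // x ∈ vs}) := by simp
  have hadj : (labGraph vs (adjE L)).Adj y p := by
    rw [adj_iff, adjP_lr]
    left
    refine ⟨rfl, ?_⟩
    simp [ρ]
  exact hmax.1 hy hp hadj.ne hadj

end

end Pool.Agent.H609R2
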